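import Mathlib
import Pool.Agent.H26.IdealAnti

open Cardinal

universe u

/-- Q1: for each cardinal `μ` there is a cardinal `lam` such that for every poset without an
antichain of cardinality `μ`, the poset of ideals has no antichain of cardinality `lam`. -/
theorem Pool.Agent.Results.MP_88803c_co.IdealBound.result (μ : Cardinal.{u}) :
    ∃ lam : Cardinal.{u}, ∀ (P : Type u) [PartialOrder P],
      (∀ A : Set P, IsAntichain (· ≤ ·) A → Cardinal.mk A ≠ μ) →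
      ∀ 𝒜 : Set (Order.Ideal P), IsAntichain (· ≤ ·) 𝒜 → Cardinal.mk 𝒜 ≠ lam := by
  refine ⟨Order.succ ((2 : Cardinal.{u}) ^ ((2 : Cardinal.{u}) ^ (max μ ℵ₀))),
    fun P _ hP 𝒜 h𝒜 => ?_⟩
  have h0 : ℵ₀ ≤ max μ ℵ₀ := le_max_right _ _
  have h1 : ∀ A : Set P, IsAntichain (· ≤ ·) A → #A < Order.succ (max μ ℵ₀) := by
    intro A hA
    rw [Order.lt_succ_iff]
    by_contra hn
    obtain ⟨B, hB, hB'⟩ := Cardinal.le_mk_iff_exists_subset.1
      ((le_max_left μ ℵ₀).trans (not_le.1 hn).le)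
    exact hP B (hA.subset hB) hB'
  have h2 : Order.succ (max μ ℵ₀) ≤ 2 ^ (max μ ℵ₀) := Order.succ_le_of_lt (Cardinal.cantor _)
  have := Pool.Agent.H26.IdealAnti.core (Cardinal.isRegular_succ h0) h2 (fun θ hθ => by
    have hθ' : θ ≤ max μ ℵ₀ := Order.lt_succ_iff.1 hθ
    calc Order.succ (max μ ℵ₀) ^ θ ≤ (2 ^ (max μ ℵ₀)) ^ θ := Cardinal.power_le_power_right h2
      _ ≤ (2 ^ (max μ ℵ₀)) ^ (max μ ℵ₀) :=
        Cardinal.power_le_power_left (Cardinal.power_ne_zero _ two_ne_zero) hθ'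
      _ = 2 ^ (max μ ℵ₀) := by rw [← Cardinal.power_mul, Cardinal.mul_eq_self h0]) h1 𝒜 h𝒜
  exact (Order.lt_succ_of_le this).ne
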