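import Mathlib
import Pool.Agent.H26.IdealAnti

open Cardinal

universe u

/-- Q2 for infinite cardinals `μ` with `μ ^ θ ≤ μ` for all `θ < μ`. -/
theorem Pool.Agent.Results.MP_88803c_co.SharpBound.result (μ : Cardinal.{u})
    (hμ : Cardinal.aleph0 ≤ μ) (hpow : ∀ θ < μ, μ ^ θ ≤ μ) (P : Type u) [PartialOrder P]
    (hP : ∀ A : Set P, IsAntichain (· ≤ ·) A → Cardinal.mk A ≠ μ)
    (𝒜 : Set (Order.Ideal P)) (h𝒜 : IsAntichain (· ≤ ·) 𝒜) :
    Cardinal.mk 𝒜 ≠ Order.succ (μ ^ μ) := by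
  have hreg : μ.IsRegular := by
    refine ⟨hμ, ?_⟩
    by_contra hn
    exact (Cardinal.lt_power_cof_ord hμ).not_ge (hpow _ (not_le.1 hn))
  have h1 : ∀ A : Set P, IsAntichain (· ≤ ·) A → #A < μ := by
    intro A hA
    by_contra hn
    obtain ⟨B, hB, hB'⟩ := Cardinal.le_mk_iff_exists_subset.1 (not_lt.1 hn)
    exact hP B (hA.subset hB) hB'
  have := Pool.Agent.H26.IdealAnti.core hreg le_rfl hpow h1 𝒜 h𝒜
  rw [Cardinal.power_self_eq hμ]
  exact (Order.lt_succ_of_le this).ne
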